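import Mathlib

/-!
# Ratio gaps in rigid rational tuples

The tuple `(1, m, m+1, ..., 2m)` is rigid for every `m ≥ 1`: the equations `v_0 = 1`,
`v_k + v_0 = v_(k+1)` (`1 ≤ k ≤ m`) and `v_1 + v_1 = v_(m+1)` have only this solution.  So the
quotient of two consecutive absolute values, the smaller one being at least `1`, is not bounded.
-/

set_option autoImplicit false

namespace Pool.Agent.Results.MP_ee20a5_al.NoRatioBound

/-- A tuple of rational numbers is rigid if it is the only rational tuple that satisfies all the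
equations `v_i = 1` and `v_i + v_j = v_k` which it satisfies. -/
def Rigid {n : ℕ} (x : Fin n → ℚ) : Prop :=
  ∀ y : Fin n → ℚ, (∀ i, x i = 1 → y i = 1) → (∀ i j k, x i + x j = x k → y i + y j = y k) → y = x

/-- the tuple `(1, m, m+1, ..., 2m)` -/
def tup (m : ℕ) : Fin (m + 2) → ℚ := fun i => if (i : ℕ) = 0 then 1 else (m : ℚ) + ((i : ℕ) - 1 : ℚ)

theorem tup_rigid (m : ℕ) (hm : 1 ≤ m) : Rigid (tup m) := by
  intro y h1 h2
  have h0 : y ⟨0, by omega⟩ = 1 := h1 _ (by simp [tup])
  have hstep : ∀ k : ℕ, ∀ hk : k < m + 1, y ⟨k + 1, by omega⟩ = y ⟨1, by omega⟩ + k := by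
    intro k
    induction k with
    | zero => intro hk; simp
    | succ k ih =>
      intro hk
      have h3 := h2 ⟨k + 1, by omega⟩ ⟨0, by omega⟩ ⟨k + 1 + 1, by omega⟩ (by
        simp only [tup, Nat.add_eq_zero_iff, one_ne_zero, and_false, if_false, if_true]
        push_cast
        ring)
      rw [h0, ih (by omega)] at h3
      rw [← h3]
      push_cast
      ring
  have h4 := h2 ⟨1, by omega⟩ ⟨1, by omega⟩ ⟨m + 1, by omega⟩ (by
    simp only [tup, Nat.add_eq_zero_iff, one_ne_zero, and_false, if_false]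
    push_cast
    ring)
  rw [hstep m (by omega)] at h4
  have h5 : y ⟨1, by omega⟩ = m := by linarith
  funext i
  obtain ⟨i, hi⟩ := i
  rcases i with _ | k
  · rw [h0]; simp [tup]
  · rw [hstep k (by omega), h5]
    simp only [tup, Nat.add_eq_zero_iff, one_ne_zero, and_false, if_false]
    push_cast
    ring

/-- For every rational number `C` there is a rigid tuple of rational numbers, all at least `1`, in
nondecreasing order, with two consecutive entries `x_i`, `x_(i+1)` such that
`|x_(i+1)| > C |x_i|`. -/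
theorem result (C : ℚ) : ∃ (n : ℕ) (x : Fin n → ℚ) (i : ℕ) (hi : i + 1 < n),
    2 ≤ n ∧ Rigid x ∧ (∀ j k : Fin n, j ≤ k → |x j| ≤ |x k|) ∧ (∀ j, 1 ≤ x j) ∧
      1 ≤ |x ⟨i, by omega⟩| ∧ C * |x ⟨i, by omega⟩| < |x ⟨i + 1, hi⟩| := by
  obtain ⟨m, hm⟩ := exists_nat_gt (max C 1)
  have hm1 : (1 : ℚ) < m := lt_of_le_of_lt (le_max_right _ _) hm
  have hmC : C < m := lt_of_le_of_lt (le_max_left _ _) hm
  have hm' : 1 ≤ m := by
    have : 1 < m := by exact_mod_cast hm1
    omega
  have hge : ∀ j, 1 ≤ tup m j := by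
    intro j
    simp only [tup]
    split_ifs with hj
    · exact le_rfl
    · have : (1 : ℚ) ≤ (j : ℕ) := by exact_mod_cast Nat.one_le_iff_ne_zero.2 hj
      linarith
  have habs : ∀ j, |tup m j| = tup m j := fun j => abs_of_nonneg (by linarith [hge j])
  refine ⟨m + 2, tup m, 0, by omega, by omega, tup_rigid m hm', ?_, hge, ?_, ?_⟩
  · intro j k hjk
    rw [habs, habs]
    have hjk' : (j : ℕ) ≤ k := hjk
    simp only [tup]
    split_ifs with h1 h2 h2
    · exact le_rfl
    · have : (1 : ℚ) ≤ (k : ℕ) := by exact_mod_cast Nat.one_le_iff_ne_zero.2 h2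
      linarith
    · omega
    · have : ((j : ℕ) : ℚ) ≤ (k : ℕ) := by exact_mod_cast hjk'
      linarith
  · rw [habs]; exact hge _
  · rw [habs, habs]
    simp only [tup, if_true, zero_add, one_ne_zero, if_false, mul_one]
    push_cast
    linarith

end Pool.Agent.Results.MP_ee20a5_al.NoRatioBound
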